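import Mathlib
import Pool.Agent.Lib.MP_b0e841_co.GU.Defs

/-! Part G1: the identity at an algebraically independent point is an identity of polynomials. -/

namespace Pool.Agent.Lib.MPb0e841.GU

open MvPolynomial Finset

/-- The polynomial `∑ x_i X_i`. -/
noncomputable def G1_PL {k : ℕ} (x : Fin k → ℤ) : MvPolynomial (Fin k) ℚ :=
  ∑ i, C (x i : ℚ) * X i

/-- The polynomial `(∏ X_i) * ∑ x_i / X_i`. -/
noncomputable def G1_PLc {k : ℕ} (x : Fin k → ℤ) : MvPolynomial (Fin k) ℚ :=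
  ∑ i, C (x i : ℚ) * ∏ j ∈ univ.erase i, X j

theorem G1_aeval_PL {k : ℕ} (x : Fin k → ℤ) (t : Fin k → ℂ) :
    aeval t (G1_PL x) = L x t := by
  simp [G1_PL, L]

theorem G1_aeval_PLc {k : ℕ} (x : Fin k → ℤ) (t : Fin k → ℂ) (ht : ∀ i, t i ≠ 0) :
    aeval t (G1_PLc x) = (∏ i, t i) * Lc x t := by
  simp only [G1_PLc, Lc, map_sum, map_mul, map_prod, aeval_X, aeval_C, Finset.mul_sum]
  refine Finset.sum_congr rfl fun i _ => ?_
  rw [← Finset.mul_prod_erase univ t (Finset.mem_univ i)]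
  have := ht i
  simp only [map_intCast]
  field_simp

theorem cir_of_indep {k : ℕ} (u : Fin k → ℂ) (hu : ∀ i, u i ≠ 0) (hind : AlgebraicIndependent ℚ u)
    (x y z : Fin k → ℤ) (h : Cir x y z u) :
    ∀ t : Fin k → ℂ, (∀ i, t i ≠ 0) → Cir x y z t := by
  intro t ht
  set F : MvPolynomial (Fin k) ℚ :=
    G1_PL x * G1_PLc x * (G1_PL y * G1_PLc y) * (G1_PL z * G1_PLc z)
      + (G1_PL x * G1_PLc y - G1_PLc x * G1_PL y) ^ 2 * ∏ i, X i with hF
  have key : ∀ s : Fin k → ℂ, (∀ i, s i ≠ 0) → aeval s F = (∏ i, s i) ^ 3 *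
      (L x s * Lc x s * (L y s * Lc y s) * (L z s * Lc z s)
        + (L x s * Lc y s - Lc x s * L y s) ^ 2) := by
    intro s hs
    simp only [hF, map_add, map_mul, map_sub, map_pow, map_prod, aeval_X, G1_aeval_PL,
      G1_aeval_PLc _ s hs]
    ring
  have hF0 : F = 0 := by
    apply hind.eq_zero_of_aeval_eq_zero
    rw [key u hu]
    unfold Cir at h
    rw [h]
    ring
  have h1 := key t ht
  rw [hF0, map_zero] at h1
  have hP : (∏ i, t i) ^ 3 ≠ 0 := pow_ne_zero _ (Finset.prod_ne_zero_iff.mpr fun i _ => ht i)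
  have h2 := (mul_eq_zero.mp h1.symm).resolve_left hP
  unfold Cir
  linear_combination h2

end Pool.Agent.Lib.MPb0e841.GU
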