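import Mathlib
import Pool.Agent.Lib.MP_b0e841_co.GU.Defs

/-! Generic unit vectors: the top coefficient of the circumradius identity in one variable. -/

namespace Pool.Agent.Lib.MPb0e841.GU

private lemma L_update {k : ℕ} (x : Fin k → ℤ) (t : Fin k → ℂ) (i : Fin k) (s : ℂ) :
    L x (Function.update t i s) = x i * s + (L x t - x i * t i) := by
  unfold L
  rw [← Finset.add_sum_erase _ _ (Finset.mem_univ i),
    ← Finset.add_sum_erase (Finset.univ) (fun l => (x l : ℂ) * t l) (Finset.mem_univ i)]
  rw [Function.update_self]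
  have h : ∑ l ∈ Finset.univ.erase i, (x l : ℂ) * Function.update t i s l =
      ∑ l ∈ Finset.univ.erase i, (x l : ℂ) * t l :=
    Finset.sum_congr rfl fun l hl => by
      rw [Function.update_of_ne (Finset.ne_of_mem_erase hl)]
  rw [h]
  ring

private lemma Lc_update {k : ℕ} (x : Fin k → ℤ) (t : Fin k → ℂ) (i : Fin k) (s : ℂ) :
    Lc x (Function.update t i s) = x i / s + (Lc x t - x i / t i) := by
  unfold Lc
  rw [← Finset.add_sum_erase _ _ (Finset.mem_univ i),
    ← Finset.add_sum_erase (Finset.univ) (fun l => (x l : ℂ) / t l) (Finset.mem_univ i)]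
  rw [Function.update_self]
  have h : ∑ l ∈ Finset.univ.erase i, (x l : ℂ) / Function.update t i s l =
      ∑ l ∈ Finset.univ.erase i, (x l : ℂ) / t l :=
    Finset.sum_congr rfl fun l hl => by
      rw [Function.update_of_ne (Finset.ne_of_mem_erase hl)]
  rw [h]
  ring

private lemma ident {X a a' b b' c c' s : ℂ} (hs : s ≠ 0)
    (h : (X * s + a) * (X / s + a') * ((-X * s + b) * (-X / s + b')) * (c * c') =
      -((X * s + a) * (-X / s + b') - (X / s + a') * (-X * s + b)) ^ 2) :
    (X * s + a) * (X + a' * s) * ((-X * s + b) * (-X + b' * s)) * (c * c') =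
      -(X * s ^ 2 * (a' + b') - X * (a + b) + (a * b' - a' * b) * s) ^ 2 := by
  have e1 : (X + a' * s) = s * (X / s + a') := by field_simp
  have e2 : (-X + b' * s) = s * (-X / s + b') := by field_simp
  have e3 : X * s ^ 2 * (a' + b') - X * (a + b) + (a * b' - a' * b) * s =
      s * ((X * s + a) * (-X / s + b') - (X / s + a') * (-X * s + b)) := by
    field_simp
    ring
  rw [e1, e2, e3]
  linear_combination s ^ 2 * h

theorem top_coeff {k : ℕ} (x y z : Fin k → ℤ) (hz : ∀ l, x l + y l + z l = 0)
    (H : ∀ t : Fin k → ℂ, (∀ i, t i ≠ 0) → Cir x y z t) (i : Fin k) (hzi : z i = 0)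
    (hxi : x i ≠ 0) :
    ∀ t : Fin k → ℂ, (∀ l, t l ≠ 0) →
      (Lc x t - x i / t i) * (Lc y t - y i / t i) * (L z t * Lc z t) = (Lc z t) ^ 2 := by
  intro t ht
  have hyi : (y i : ℂ) = -(x i : ℂ) := by
    have := hz i
    rw [hzi, add_zero] at this
    have h2 : y i = - x i := by omega
    rw [h2]
    push_cast
    ring
  have hsumc : Lc x t + Lc y t + Lc z t = 0 := by
    unfold Lc
    rw [← Finset.sum_add_distrib, ← Finset.sum_add_distrib]
    apply Finset.sum_eq_zero
    intro l _
    have : (x l : ℂ) + y l + z l = 0 := by exact_mod_cast hz l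
    rw [← add_div, ← add_div, this, zero_div]
  set X : ℂ := (x i : ℂ) with hX
  have hX0 : X ≠ 0 := by rw [hX]; exact_mod_cast hxi
  set a := L x t - X * t i with ha
  set a' := Lc x t - X / t i with ha'
  set b := L y t - y i * t i with hb
  set b' := Lc y t - y i / t i with hb'
  set c := L z t with hc
  set c' := Lc z t with hc'
  have hE : ∀ s : ℂ, s ≠ 0 → (X * s + a) * (X + a' * s) * ((-X * s + b) * (-X + b' * s)) * (c * c') =
      -(X * s ^ 2 * (a' + b') - X * (a + b) + (a * b' - a' * b) * s) ^ 2 := by
    intro s hs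
    apply ident hs
    have h1 := H (Function.update t i s) (by
      intro l
      rcases eq_or_ne l i with rfl | hl
      · rw [Function.update_self]; exact hs
      · rw [Function.update_of_ne hl]; exact ht l)
    unfold Cir at h1
    rw [L_update, Lc_update, L_update y, Lc_update y, L_update z, Lc_update z, hzi, hyi] at h1
    have hby : L y t - -X * t i = b := by rw [hb, hyi]
    have hby' : Lc y t - -X / t i = b' := by rw [hb', hyi]
    rw [hby, hby'] at h1
    simp only [Int.cast_zero, zero_mul, zero_div, zero_add, sub_zero] at h1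
    rw [← hX, ← ha, ← ha', ← hc, ← hc'] at h1
    linear_combination h1
  have h1 := hE 1 one_ne_zero
  have h2 := hE 2 two_ne_zero
  have h3 := hE 3 (by norm_num)
  have h4 := hE 4 (by norm_num)
  have h5 := hE 5 (by norm_num)
  have key : X ^ 2 * (a' * b' * (c * c')) = X ^ 2 * (a' + b') ^ 2 := by
    linear_combination (-1 / 24 : ℂ) * (h1 - 4 * h2 + 6 * h3 - 4 * h4 + h5)
  have key2 := mul_left_cancel₀ (pow_ne_zero 2 hX0) key
  have hab : a' + b' = -c' := by
    rw [ha', hb', hyi]
    have : Lc x t + Lc y t = -c' := by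
      rw [hc']
      linear_combination hsumc
    linear_combination this
  rw [key2, hab]
  ring

end Pool.Agent.Lib.MPb0e841.GU
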