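import Mathlib
import Pool.Agent.Lib.MP_b0e841_co.GU.Defs

/-! Classification of the triangles from the identity of the top coefficient. -/

set_option autoImplicit false

namespace Pool.Agent.Lib.MPb0e841.GU

theorem g3_L_update {k : ℕ} (c : Fin k → ℤ) (t : Fin k → ℂ) (j : Fin k) (s : ℂ) :
    L c (Function.update t j s) = (c j : ℂ) * s + L (Function.update c j 0) t := by
  unfold L
  rw [← Finset.add_sum_erase Finset.univ _ (Finset.mem_univ j),
    ← Finset.add_sum_erase Finset.univ (fun i => ((Function.update c j 0 i : ℤ) : ℂ) * t i)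
      (Finset.mem_univ j)]
  rw [Function.update_self, Function.update_self, Int.cast_zero, zero_mul, zero_add]
  congr 1
  refine Finset.sum_congr rfl fun l hl => ?_
  have hlj : l ≠ j := (Finset.mem_erase.1 hl).1
  rw [Function.update_of_ne hlj, Function.update_of_ne hlj]

theorem g3_Lc_update {k : ℕ} (c : Fin k → ℤ) (t : Fin k → ℂ) (j : Fin k) (s : ℂ) :
    Lc c (Function.update t j s) = (c j : ℂ) / s + Lc (Function.update c j 0) t := by
  unfold Lc
  rw [← Finset.add_sum_erase Finset.univ _ (Finset.mem_univ j),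
    ← Finset.add_sum_erase Finset.univ (fun i => ((Function.update c j 0 i : ℤ) : ℂ) / t i)
      (Finset.mem_univ j)]
  rw [Function.update_self, Function.update_self, Int.cast_zero, zero_div, zero_add]
  congr 1
  refine Finset.sum_congr rfl fun l hl => ?_
  have hlj : l ≠ j := (Finset.mem_erase.1 hl).1
  rw [Function.update_of_ne hlj, Function.update_of_ne hlj]

theorem g3_upd_ne {k : ℕ} {t : Fin k → ℂ} (ht : ∀ l, t l ≠ 0) (j : Fin k) {s : ℂ} (hs : s ≠ 0) :
    ∀ l, Function.update t j s l ≠ 0 := by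
  intro l
  by_cases h : l = j
  · subst h
    rw [Function.update_self]
    exact hs
  · rw [Function.update_of_ne h]
    exact ht l

theorem g3_L_zero {k : ℕ} (c : Fin k → ℤ) (h : ∀ t : Fin k → ℂ, (∀ l, t l ≠ 0) → L c t = 0) :
    ∀ l, c l = 0 := by
  intro l
  have h1 := h (Function.update (fun _ => 1) l 1) (g3_upd_ne (fun _ => one_ne_zero) l one_ne_zero)
  have h2 := h (Function.update (fun _ => 1) l (-1))
    (g3_upd_ne (fun _ => one_ne_zero) l (by norm_num))
  rw [g3_L_update] at h1 h2
  have h3 : (c l : ℂ) = 0 := by linear_combination (h1 - h2) / 2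
  exact_mod_cast h3

theorem g3_Lc_zero {k : ℕ} (c : Fin k → ℤ) (h : ∀ t : Fin k → ℂ, (∀ l, t l ≠ 0) → Lc c t = 0) :
    ∀ l, c l = 0 := by
  intro l
  have h1 := h (Function.update (fun _ => 1) l 1) (g3_upd_ne (fun _ => one_ne_zero) l one_ne_zero)
  have h2 := h (Function.update (fun _ => 1) l (-1))
    (g3_upd_ne (fun _ => one_ne_zero) l (by norm_num))
  rw [g3_Lc_update] at h1 h2
  have h3 : (c l : ℂ) = 0 := by linear_combination (h1 - h2) / 2
  exact_mod_cast h3

theorem g3_cub (b c a0 a1 a2 a3 : ℂ) (hb : b ≠ 0)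
    (h : ∀ s : ℂ, s ≠ 0 → (b + c * s) * (a0 + a1 * s + a2 * s ^ 2 + a3 * s ^ 3) = 0) :
    a0 = 0 ∧ a1 = 0 ∧ a2 = 0 ∧ a3 = 0 := by
  open Polynomial in
  have h1 : (X : ℂ[X]) * ((C b + C c * X) * (C a0 + C a1 * X + C a2 * X ^ 2 + C a3 * X ^ 3)) = 0 := by
    apply Polynomial.funext
    intro s
    simp only [eval_mul, eval_add, eval_X, eval_C, eval_pow, eval_zero]
    by_cases hs : s = 0
    · rw [hs, zero_mul]
    · rw [h s hs, mul_zero]
  open Polynomial in
  have h2 : (C b + C c * X : ℂ[X]) ≠ 0 := by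
    intro h3
    have h4 := congrArg (fun p => p.coeff 0) h3
    simp at h4
    exact hb h4
  open Polynomial in
  have h3 : (C a0 + C a1 * X + C a2 * X ^ 2 + C a3 * X ^ 3 : ℂ[X]) = 0 := by
    rcases mul_eq_zero.1 h1 with h4 | h4
    · exact absurd h4 X_ne_zero
    · rcases mul_eq_zero.1 h4 with h5 | h5
      · exact absurd h5 h2
      · exact h5
  refine ⟨?_, ?_, ?_, ?_⟩
  · have := congrArg (fun p => p.coeff 0) h3
    simpa [Polynomial.coeff_X, Polynomial.coeff_X_pow] using this
  · have := congrArg (fun p => p.coeff 1) h3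
    simpa [Polynomial.coeff_X, Polynomial.coeff_X_pow, Polynomial.coeff_C] using this
  · have := congrArg (fun p => p.coeff 2) h3
    simpa [Polynomial.coeff_X, Polynomial.coeff_X_pow, Polynomial.coeff_C] using this
  · have := congrArg (fun p => p.coeff 3) h3
    simpa [Polynomial.coeff_X, Polynomial.coeff_X_pow, Polynomial.coeff_C] using this

/-- The coefficients of the identity in `t_j`. -/
theorem g3_coeff {k : ℕ} (x y z : Fin k → ℤ)
    (H : ∀ t : Fin k → ℂ, (∀ l, t l ≠ 0) → Lc x t * Lc y t * (L z t * Lc z t) = (Lc z t) ^ 2)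
    (j : Fin k) (hj : z j ≠ 0) (t : Fin k → ℂ) (ht : ∀ l, t l ≠ 0) :
    (x j : ℂ) * y j * L (Function.update z j 0) t = 0 ∧
    (x j : ℂ) * y j * z j + (x j * Lc (Function.update y j 0) t +
      y j * Lc (Function.update x j 0) t) * L (Function.update z j 0) t = z j ∧
    ((x j : ℂ) * Lc (Function.update y j 0) t + y j * Lc (Function.update x j 0) t) * z j +
      Lc (Function.update x j 0) t * Lc (Function.update y j 0) t *
        L (Function.update z j 0) t = Lc (Function.update z j 0) t ∧
    Lc (Function.update x j 0) t * Lc (Function.update y j 0) t * z j = 0 := by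
  set a := Lc (Function.update x j 0) t with ha
  set b := Lc (Function.update y j 0) t with hb
  set c := L (Function.update z j 0) t with hc
  set d := Lc (Function.update z j 0) t with hd
  have hzj : (z j : ℂ) ≠ 0 := by exact_mod_cast hj
  have key := g3_cub (z j : ℂ) d ((x j : ℂ) * y j * c)
    ((x j : ℂ) * y j * z j + (x j * b + y j * a) * c - z j)
    (((x j : ℂ) * b + y j * a) * z j + a * b * c - d) (a * b * z j) hzj (by
      intro s hs
      have h1 := H (Function.update t j s) (g3_upd_ne ht j hs)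
      rw [g3_Lc_update, g3_Lc_update, g3_Lc_update, g3_L_update, ← ha, ← hb, ← hc, ← hd] at h1
      have h2 : ((x j : ℂ) / s + a) * ((y j : ℂ) / s + b) * (((z j : ℂ) * s + c) *
          ((z j : ℂ) / s + d)) * s ^ 3 = ((z j : ℂ) / s + d) ^ 2 * s ^ 3 := by rw [h1]
      have h3 : ((x j : ℂ) / s + a) * ((y j : ℂ) / s + b) * (((z j : ℂ) * s + c) *
          ((z j : ℂ) / s + d)) * s ^ 3 = (x j + a * s) * (y j + b * s) * (z j * s + c) *
            (z j + d * s) := by
        field_simp
      have h4 : ((z j : ℂ) / s + d) ^ 2 * s ^ 3 = s * (z j + d * s) ^ 2 := by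
        field_simp
      rw [h3, h4] at h2
      linear_combination h2)
  obtain ⟨k0, k1, k2, k3⟩ := key
  refine ⟨k0, ?_, ?_, k3⟩
  · linear_combination k1
  · linear_combination k2

/-- The case `y_j = 0`. -/
theorem g3_half {k : ℕ} (x y z : Fin k → ℤ) (hz : ∀ l, x l + y l + z l = 0)
    (H : ∀ t : Fin k → ℂ, (∀ l, t l ≠ 0) → Lc x t * Lc y t * (L z t * Lc z t) = (Lc z t) ^ 2)
    (j : Fin k) (hj : z j ≠ 0) (hy : y j = 0) :
    (x j = 1 ∨ x j = -1) ∧ (∀ l, l ≠ j → x l = 0) ∧ ∃ m, m ≠ j ∧ y m ≠ 0 := by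
  have hx : x j = - z j := by have := hz j; omega
  have hxj : x j ≠ 0 := by omega
  have hxc : (x j : ℂ) ≠ 0 := by exact_mod_cast hxj
  have hzc : (z j : ℂ) ≠ 0 := by exact_mod_cast hj
  have hxz : (x j : ℂ) = - z j := by exact_mod_cast hx
  have hsum : ∀ t : Fin k → ℂ, Lc (Function.update x j 0) t + Lc (Function.update y j 0) t +
      Lc (Function.update z j 0) t = 0 := by
    intro t
    unfold Lc
    rw [← Finset.sum_add_distrib, ← Finset.sum_add_distrib]
    apply Finset.sum_eq_zero
    intro l _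
    rw [← add_div, ← add_div]
    have h1 : ((Function.update x j 0 l : ℤ) : ℂ) + ((Function.update y j 0 l : ℤ) : ℂ) +
        ((Function.update z j 0 l : ℤ) : ℂ) = 0 := by
      by_cases h : l = j
      · subst h
        simp
      · rw [Function.update_of_ne h, Function.update_of_ne h, Function.update_of_ne h]
        exact_mod_cast hz l
    rw [h1, zero_div]
  have hall : ∀ t : Fin k → ℂ, (∀ l, t l ≠ 0) →
      Lc (Function.update y j 0) t ≠ 0 ∧ Lc (Function.update x j 0) t = 0 ∧
      (x j : ℂ) * z j = -1 := by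
    intro t ht
    obtain ⟨-, h2, h3, h4⟩ := g3_coeff x y z H j hj t ht
    have h5 := hsum t
    rw [hy] at h2 h3
    simp only [Int.cast_zero, mul_zero, zero_mul, zero_add, add_zero] at h2 h3
    have hb : Lc (Function.update y j 0) t ≠ 0 := by
      intro h6
      rw [h6, mul_zero, zero_mul] at h2
      exact hzc h2.symm
    have ha : Lc (Function.update x j 0) t = 0 := by
      rcases mul_eq_zero.1 h4 with h6 | h6
      · rcases mul_eq_zero.1 h6 with h7 | h7
        · exact h7
        · exact absurd h7 hb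
      · exact absurd h6 hzc
    refine ⟨hb, ha, ?_⟩
    rw [ha] at h3 h5
    have h6 : Lc (Function.update y j 0) t * ((x j : ℂ) * z j + 1) = 0 := by
      linear_combination h3 + h5
    rcases mul_eq_zero.1 h6 with h7 | h7
    · exact absurd h7 hb
    · linear_combination h7
  have h1 := hall (fun _ => 1) (fun _ => one_ne_zero)
  refine ⟨?_, ?_, ?_⟩
  · have h2 : (x j : ℂ) * x j = 1 := by
      have h3 := h1.2.2
      have h4 : (z j : ℂ) = - x j := by rw [hxz, neg_neg]
      rw [h4] at h3
      linear_combination -h3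
    have h3 : x j * x j = 1 := by exact_mod_cast h2
    exact Int.isUnit_iff.1 (IsUnit.of_mul_eq_one _ h3)
  · have h2 := g3_Lc_zero (Function.update x j 0) (fun t ht => (hall t ht).2.1)
    intro l hl
    have h3 := h2 l
    rwa [Function.update_of_ne hl] at h3
  · by_contra hcon
    push Not at hcon
    apply h1.1
    unfold Lc
    apply Finset.sum_eq_zero
    intro l _
    have h2 : Function.update y j 0 l = 0 := by
      by_cases h : l = j
      · subst h
        rw [Function.update_self]
      · rw [Function.update_of_ne h]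
        exact hcon l h
    rw [h2]
    simp

theorem g3_cls {k : ℕ} (x y z : Fin k → ℤ) (hz : ∀ l, x l + y l + z l = 0) (hz0 : z ≠ 0)
    (H : ∀ t : Fin k → ℂ, (∀ l, t l ≠ 0) → Lc x t * Lc y t * (L z t * Lc z t) = (Lc z t) ^ 2) :
    (∃ j, (x j = 1 ∨ x j = -1) ∧ y j = x j ∧ ∀ l, l ≠ j → x l = 0 ∧ y l = 0) ∨
    (∃ j m, j ≠ m ∧ (x j = 1 ∨ x j = -1) ∧ y j = 0 ∧ x m = 0 ∧ (y m = 1 ∨ y m = -1) ∧
      ∀ l, l ≠ j → l ≠ m → x l = 0 ∧ y l = 0) := by
  have H' : ∀ t : Fin k → ℂ, (∀ l, t l ≠ 0) →
      Lc y t * Lc x t * (L z t * Lc z t) = (Lc z t) ^ 2 := by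
    intro t ht
    rw [mul_comm (Lc y t)]
    exact H t ht
  have hz' : ∀ l, y l + x l + z l = 0 := fun l => by have := hz l; omega
  obtain ⟨j, hj⟩ : ∃ j, z j ≠ 0 := by
    by_contra hcon
    push Not at hcon
    exact hz0 (funext hcon)
  by_cases hxy : x j * y j = 0
  · right
    rcases mul_eq_zero.1 hxy with hx | hy
    · obtain ⟨h1, h2, m, hm, hxm⟩ := g3_half y x z hz' H' j hj hx
      have hym : y m = 0 := h2 m hm
      have hzm : z m ≠ 0 := by have := hz m; omega
      obtain ⟨h3, h4, -⟩ := g3_half x y z hz H m hzm hym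
      exact ⟨m, j, hm, h3, hym, hx, h1, fun l hl1 hl2 => ⟨h4 l hl1, h2 l hl2⟩⟩
    · obtain ⟨h1, h2, m, hm, hym⟩ := g3_half x y z hz H j hj hy
      have hxm : x m = 0 := h2 m hm
      have hzm : z m ≠ 0 := by have := hz m; omega
      obtain ⟨h3, h4, -⟩ := g3_half y x z hz' H' m hzm hxm
      exact ⟨j, m, hm.symm, h1, hy, hxm, h3, fun l hl1 hl2 => ⟨h2 l hl1, h4 l hl2⟩⟩
  · left
    have hxyc : (x j : ℂ) * y j ≠ 0 := by exact_mod_cast hxy
    have hzc : (z j : ℂ) ≠ 0 := by exact_mod_cast hj
    have hzl : ∀ l, Function.update z j 0 l = 0 := by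
      apply g3_L_zero
      intro t ht
      rcases mul_eq_zero.1 (g3_coeff x y z H j hj t ht).1 with h | h
      · exact absurd h hxyc
      · exact h
    have hzu : Function.update z j 0 = 0 := funext hzl
    have hab : ∀ t : Fin k → ℂ, (∀ l, t l ≠ 0) → Lc (Function.update x j 0) t = 0 := by
      intro t ht
      have h1 := (g3_coeff x y z H j hj t ht).2.2.2
      have h2 : Lc (Function.update x j 0) t + Lc (Function.update y j 0) t = 0 := by
        unfold Lc
        rw [← Finset.sum_add_distrib]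
        apply Finset.sum_eq_zero
        intro l _
        rw [← add_div]
        have h3 : ((Function.update x j 0 l : ℤ) : ℂ) + ((Function.update y j 0 l : ℤ) : ℂ) = 0 := by
          by_cases h : l = j
          · subst h
            simp
          · have h4 := hzl l
            rw [Function.update_of_ne h] at h4
            rw [Function.update_of_ne h, Function.update_of_ne h]
            have h5 := hz l
            rw [h4, add_zero] at h5
            exact_mod_cast h5
        rw [h3, zero_div]
      rcases mul_eq_zero.1 h1 with h3 | h3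
      · rcases mul_eq_zero.1 h3 with h4 | h4
        · exact h4
        · rw [h4, add_zero] at h2
          exact h2
      · exact absurd h3 hzc
    have hxl := g3_Lc_zero _ hab
    have hC := (g3_coeff x y z H j hj (fun _ => 1) (fun _ => one_ne_zero)).2.1
    have hL0 : L (Function.update z j 0) (fun _ => (1 : ℂ)) = 0 := by
      rw [hzu]
      simp [L]
    rw [hL0, mul_zero, add_zero] at hC
    have h1 : x j * y j * z j = z j := by exact_mod_cast hC
    have h2 : x j * y j = 1 := by
      have h3 : (x j * y j - 1) * z j = 0 := by linarith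
      rcases mul_eq_zero.1 h3 with h4 | h4
      · linarith
      · exact absurd h4 hj
    have h3 : x j = 1 ∨ x j = -1 := Int.isUnit_iff.1 (IsUnit.of_mul_eq_one _ h2)
    refine ⟨j, h3, ?_, ?_⟩
    · rcases h3 with h4 | h4
      · rw [h4] at h2 ⊢
        linarith
      · rw [h4] at h2 ⊢
        linarith
    · intro l hl
      have h4 := hxl l
      have h5 := hzl l
      rw [Function.update_of_ne hl] at h4 h5
      have h6 := hz l
      exact ⟨h4, by omega⟩

/-- Classification from the identity of the top coefficient. -/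
theorem classify {k : ℕ} (x y z : Fin k → ℤ) (hz : ∀ l, x l + y l + z l = 0) (i : Fin k)
    (hzi : z i = 0) (hz0 : z ≠ 0)
    (H : ∀ t : Fin k → ℂ, (∀ l, t l ≠ 0) →
      (Lc x t - x i / t i) * (Lc y t - y i / t i) * (L z t * Lc z t) = (Lc z t) ^ 2) :
    (∃ j, j ≠ i ∧ (x j = 1 ∨ x j = -1) ∧ y j = x j ∧ z j = - 2 * x j ∧
      ∀ l, l ≠ i → l ≠ j → x l = 0 ∧ y l = 0 ∧ z l = 0) ∨
    (∃ j m, j ≠ i ∧ m ≠ i ∧ j ≠ m ∧ (x j = 1 ∨ x j = -1) ∧ y j = 0 ∧ z j = - x j ∧
      x m = 0 ∧ (y m = 1 ∨ y m = -1) ∧ z m = - y m ∧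
      ∀ l, l ≠ i → l ≠ j → l ≠ m → x l = 0 ∧ y l = 0 ∧ z l = 0) := by
  have hLi : ∀ (c : Fin k → ℤ) (t : Fin k → ℂ), Lc c t - c i / t i =
      Lc (Function.update c i 0) t := by
    intro c t
    have h := g3_Lc_update c t i (t i)
    rw [Function.update_eq_self] at h
    rw [h]
    ring
  have hz1 : ∀ l, Function.update x i 0 l + Function.update y i 0 l + z l = 0 := by
    intro l
    by_cases h : l = i
    · subst h
      rw [Function.update_self, Function.update_self, hzi]
      rfl
    · rw [Function.update_of_ne h, Function.update_of_ne h]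
      exact hz l
  have H1 : ∀ t : Fin k → ℂ, (∀ l, t l ≠ 0) → Lc (Function.update x i 0) t *
      Lc (Function.update y i 0) t * (L z t * Lc z t) = (Lc z t) ^ 2 := by
    intro t ht
    rw [← hLi, ← hLi]
    exact H t ht
  have hne : ∀ (c : Fin k → ℤ) (j : Fin k), (Function.update c i 0 j = 1 ∨
      Function.update c i 0 j = -1) → j ≠ i := by
    rintro c j h rfl
    rw [Function.update_self] at h
    omega
  rcases g3_cls _ _ z hz1 hz0 H1 with ⟨j, h1, h2, h3⟩ | ⟨j, m, hjm, h1, h2, h3, h4, h5⟩
  · left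
    have hji := hne x j h1
    rw [Function.update_of_ne hji] at h1 h2
    rw [Function.update_of_ne hji] at h2
    refine ⟨j, hji, h1, h2, ?_, ?_⟩
    · have := hz j
      omega
    · intro l hli hlj
      have h4 := h3 l hlj
      rw [Function.update_of_ne hli, Function.update_of_ne hli] at h4
      have := hz l
      exact ⟨h4.1, h4.2, by omega⟩
  · right
    have hji := hne x j h1
    have hmi := hne y m h4
    rw [Function.update_of_ne hji] at h1 h2
    rw [Function.update_of_ne hmi] at h3 h4
    refine ⟨j, m, hji, hmi, hjm, h1, h2, ?_, h3, h4, ?_, ?_⟩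
    · have := hz j
      omega
    · have := hz m
      omega
    · intro l hli hlj hlm
      have h6 := h5 l hlj hlm
      rw [Function.update_of_ne hli, Function.update_of_ne hli] at h6
      have := hz l
      exact ⟨h6.1, h6.2, by omega⟩

end Pool.Agent.Lib.MPb0e841.GU
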