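import Mathlib
import Pool.Agent.Lib.MP_b0e841_co.GU.Defs

set_option autoImplicit false

/-! An inequality for the induction. -/

namespace Pool.Agent.Lib.MPb0e841.GU

private lemma rpow_three_half {x : ℝ} (hx : 0 ≤ x) : x ^ (3 / 2 : ℝ) = Real.sqrt x ^ 3 := by
  rw [Real.sqrt_eq_rpow, ← Real.rpow_natCast, ← Real.rpow_mul hx]
  norm_num

theorem ineq (a b : ℝ) (ha : 1 ≤ a) (hab : a ≤ b) (m : ℝ) (hm1 : m ≤ b) (hm2 : m ≤ 2 * a ^ 2) :
    5 * a ^ (3 / 2 : ℝ) + 5 * b ^ (3 / 2 : ℝ) + m + a ≤ 5 * (a + b) ^ (3 / 2 : ℝ) := by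
  have ha0 : 0 ≤ a := by linarith
  have hb0 : 0 ≤ b := by linarith
  rw [rpow_three_half ha0, rpow_three_half hb0, rpow_three_half (add_nonneg ha0 hb0)]
  have hs2 : Real.sqrt a ^ 2 = a := Real.sq_sqrt ha0
  have hr2 : Real.sqrt b ^ 2 = b := Real.sq_sqrt hb0
  have hu2 : Real.sqrt (a + b) ^ 2 = a + b := Real.sq_sqrt (add_nonneg ha0 hb0)
  have hs1 : 1 ≤ Real.sqrt a := Real.one_le_sqrt.mpr ha
  have hrs : Real.sqrt a ≤ Real.sqrt b := Real.sqrt_le_sqrt hab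
  have hu0 : 0 ≤ Real.sqrt (a + b) := Real.sqrt_nonneg _
  generalize Real.sqrt a = s at *
  generalize Real.sqrt b = r at *
  generalize Real.sqrt (a + b) = u at *
  subst hs2
  subst hr2
  have hs0 : 0 < s := by linarith
  have hr0 : 0 < r := by linarith
  -- (i)
  have h1 : r ^ 3 + 3 / 2 * (s ^ 2 * r) ≤ u ^ 3 := by
    have h2 : (r ^ 3 + 3 / 2 * (s ^ 2 * r)) ^ 2 ≤ (u ^ 3) ^ 2 := by
      have e : (u ^ 3) ^ 2 = (s ^ 2 + r ^ 2) ^ 3 := by
        rw [← hu2]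
        ring
      rw [e]
      have h3 : 0 ≤ r ^ 2 * s ^ 4 := by positivity
      have h4 : 0 ≤ s ^ 6 := by positivity
      nlinarith [h3, h4]
    have hu3 : 0 ≤ u ^ 3 := by positivity
    exact (abs_le_of_sq_le_sq' h2 hu3).2
  -- (ii)
  have h5 : m + s ^ 2 + 5 * s ^ 3 ≤ 15 / 2 * (s ^ 2 * r) := by
    rcases le_total (7 / 5 * s ^ 2) r with h | h
    · have h6 : s ^ 2 * (7 / 5 * s ^ 2) ≤ s ^ 2 * r := mul_le_mul_of_nonneg_left h (by positivity)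
      have h7 : s ^ 2 ≤ s ^ 4 := pow_le_pow_right₀ hs1 (by norm_num)
      have h8 : s ^ 3 ≤ s ^ 4 := pow_le_pow_right₀ hs1 (by norm_num)
      nlinarith [h6, h7, h8, hm2]
    · have h6 : 0 ≤ (r - s) * (7 / 5 * s ^ 2 - r) :=
        mul_nonneg (by linarith) (by linarith)
      have h7 : s ^ 2 * s ≤ s ^ 2 * r := mul_le_mul_of_nonneg_left hrs (by positivity)
      have h8 : 0 ≤ (r - s) * (s * (61 / 10 * s - 1)) :=
        mul_nonneg (by linarith) (mul_nonneg hs0.le (by linarith))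
      have h9 : 0 ≤ s ^ 2 * (s - 1) := mul_nonneg (by positivity) (by linarith)
      nlinarith [h6, h7, h8, h9, hm1]
  linarith

end Pool.Agent.Lib.MPb0e841.GU
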