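import Mathlib
import Pool.Agent.Lib.MP_b0e841_co.GU.Defs

namespace Pool.Agent.Lib.MPb0e841.GU

theorem common_nbrs {k : ℕ} (p p' : Fin k → ℤ) (hp : p ≠ p') (S : Finset (Fin k → ℤ))
    (hS : ∀ z ∈ S, Nbr z p ∧ Nbr z p') : S.card ≤ 2 := by
  classical
  rcases S.eq_empty_or_nonempty with hE | ⟨z0, hz0⟩
  · rw [hE]; simp
  set T : Finset (Fin k) := Finset.univ.filter (fun l => p' l - p l ≠ 0) with hT
  have hTc : T.card ≤ 2 := by
    obtain ⟨⟨i, hi⟩, ⟨j, hj⟩⟩ := hS z0 hz0
    have hsub : T ⊆ {i, j} := by
      intro l hl
      rw [hT, Finset.mem_filter] at hl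
      by_contra hcon
      simp only [Finset.mem_insert, Finset.mem_singleton, not_or] at hcon
      apply hl.2
      rcases hi with hi | hi <;> rcases hj with hj | hj <;>
        simp [hi, hj, Pi.single_eq_of_ne hcon.1, Pi.single_eq_of_ne hcon.2]
    exact (Finset.card_le_card hsub).trans Finset.card_le_two
  have hsub : S ⊆ T.image (fun i => p + Pi.single i (Int.sign (p' i - p i))) := by
    intro z hz
    obtain ⟨⟨i, hi⟩, ⟨j, hj⟩⟩ := hS z hz
    have hd : (p = z + Pi.single i 1 ∧ Int.sign (p' i - p i) = -1) ∨
        (p = z - Pi.single i 1 ∧ Int.sign (p' i - p i) = 1) := by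
      rcases hi with hi | hi <;> rcases hj with hj | hj
      · left
        refine ⟨hi, ?_⟩
        by_cases hij : i = j
        · exfalso; apply hp; rw [hi, hj, hij]
        · have : p' i - p i = -1 := by
            rw [hi, hj]; simp [Pi.single_eq_of_ne hij]
          rw [this]; rfl
      · left
        refine ⟨hi, ?_⟩
        by_cases hij : i = j
        · have : p' i - p i = -2 := by
            rw [hi, hj, hij]; simp; ring
          rw [this]; rfl
        · have : p' i - p i = -1 := by
            rw [hi, hj]; simp [Pi.single_eq_of_ne hij]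
          rw [this]; rfl
      · right
        refine ⟨hi, ?_⟩
        by_cases hij : i = j
        · have : p' i - p i = 2 := by
            rw [hi, hj, hij]; simp
          rw [this]; rfl
        · have : p' i - p i = 1 := by
            rw [hi, hj]; simp [Pi.single_eq_of_ne hij]
          rw [this]; rfl
      · right
        refine ⟨hi, ?_⟩
        by_cases hij : i = j
        · exfalso; apply hp; rw [hi, hj, hij]
        · have : p' i - p i = 1 := by
            rw [hi, hj]; simp [Pi.single_eq_of_ne hij]
          rw [this]; rfl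
    rw [Finset.mem_image]
    refine ⟨i, ?_, ?_⟩
    · rw [hT, Finset.mem_filter]
      refine ⟨Finset.mem_univ _, fun h0 => ?_⟩
      rw [h0] at hd
      rcases hd with ⟨-, h⟩ | ⟨-, h⟩ <;> simp at h
    · rcases hd with ⟨h1, h2⟩ | ⟨h1, h2⟩
      · simp only [h2]
        conv_lhs => rw [h1]
        rw [Pi.single_neg]; abel
      · simp only [h2]
        conv_lhs => rw [h1]
        abel
  exact (Finset.card_le_card hsub).trans (Finset.card_image_le.trans hTc)

end Pool.Agent.Lib.MPb0e841.GU
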