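import Mathlib
import Pool.Agent.Lib.MP_b0e841_co.GU.Defs
import Pool.Agent.Lib.MP_b0e841_co.GU.G4a
import Pool.Agent.Lib.MP_b0e841_co.GU.G4b

/-! Generic unit vectors: points of the grid with three neighbours in a finite set. -/

namespace Pool.Agent.Lib.MPb0e841.GU

open Finset

private def T3 {k : ℕ} (Q : Finset (Fin k → ℤ)) (z : Fin k → ℤ) : Prop :=
  ∃ p ∈ Q, ∃ p' ∈ Q, ∃ p'' ∈ Q, p ≠ p' ∧ p ≠ p'' ∧ p' ≠ p'' ∧ Nbr z p ∧ Nbr z p' ∧ Nbr z p''

private def T2 {k : ℕ} (Q : Finset (Fin k → ℤ)) (z : Fin k → ℤ) : Prop :=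
  ∃ p ∈ Q, ∃ p' ∈ Q, p ≠ p' ∧ Nbr z p ∧ Nbr z p'

private lemma nbr_cases {k : ℕ} (z p : Fin k → ℤ) (h : Nbr z p) (i : Fin k) :
    p i = z i ∨ (p i = z i + 1 ∧ p = z + Pi.single i 1) ∨
      (p i = z i - 1 ∧ p = z - Pi.single i 1) := by
  obtain ⟨j, rfl | rfl⟩ := h
  · by_cases hj : j = i
    · subst hj
      right; left
      simp
    · left
      rw [Pi.add_apply, Pi.single_eq_of_ne (Ne.symm hj), add_zero]
  · by_cases hj : j = i
    · subst hj
      right; right
      simp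
    · left
      rw [Pi.sub_apply, Pi.single_eq_of_ne (Ne.symm hj), sub_zero]

private lemma split {k : ℕ} (P P0 P1 : Finset (Fin k → ℤ)) (hP : ∀ q ∈ P, q ∈ P0 ∨ q ∈ P1)
    (z w : Fin k → ℤ) (hw : ∀ q ∈ P1, Nbr z q → q = w) (h : T3 P z) :
    T3 P0 z ∨ (w ∈ P1 ∧ T2 P0 z) := by
  obtain ⟨p, hp, p', hp', p'', hp'', h1, h2, h3, n1, n2, n3⟩ := h
  rcases hP p hp with a | a
  · rcases hP p' hp' with b | b
    · rcases hP p'' hp'' with c | c
      · exact Or.inl ⟨p, a, p', b, p'', c, h1, h2, h3, n1, n2, n3⟩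
      · have e := hw _ c n3
        subst e
        exact Or.inr ⟨c, p, a, p', b, h1, n1, n2⟩
    · have e := hw _ b n2
      rcases hP p'' hp'' with c | c
      · subst e
        exact Or.inr ⟨b, p, a, p'', c, h2, n1, n3⟩
      · exact absurd (e.trans (hw _ c n3).symm) h3
  · have e := hw _ a n1
    rcases hP p' hp' with b | b
    · rcases hP p'' hp'' with c | c
      · subst e
        exact Or.inr ⟨a, p', b, p'', c, h3, n2, n3⟩
      · exact absurd (e.trans (hw _ c n3).symm) h2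
    · exact absurd (e.trans (hw _ b n2).symm) h1

open Classical in
private lemma card_T2 {k : ℕ} (P0 B : Finset (Fin k → ℤ)) (h : ∀ z ∈ B, T2 P0 z) :
    B.card ≤ 2 * P0.card ^ 2 := by
  set S := (P0 ×ˢ P0).filter (fun q => q.1 ≠ q.2) with hS
  have h1 : B ⊆ S.biUnion (fun q => B.filter (fun z => Nbr z q.1 ∧ Nbr z q.2)) := by
    intro z hz
    obtain ⟨p, hp, p', hp', hne, n1, n2⟩ := h z hz
    rw [mem_biUnion]
    exact ⟨(p, p'), mem_filter.2 ⟨mem_product.2 ⟨hp, hp'⟩, hne⟩, mem_filter.2 ⟨hz, n1, n2⟩⟩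
  have h2 : (S.biUnion (fun q => B.filter (fun z => Nbr z q.1 ∧ Nbr z q.2))).card ≤ S.card * 2 := by
    apply card_biUnion_le_card_mul
    intro q hq
    exact common_nbrs q.1 q.2 (mem_filter.1 hq).2 _ (fun z hz => (mem_filter.1 hz).2)
  have h3 : S.card ≤ P0.card ^ 2 := by
    refine (card_filter_le _ _).trans ?_
    rw [card_product, sq]
  have h4 := (card_le_card h1).trans h2
  omega

theorem card_three_nbrs {k : ℕ} (P Z : Finset (Fin k → ℤ))
    (hZ : ∀ z ∈ Z, ∃ p ∈ P, ∃ p' ∈ P, ∃ p'' ∈ P, p ≠ p' ∧ p ≠ p'' ∧ p' ≠ p'' ∧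
      Nbr z p ∧ Nbr z p' ∧ Nbr z p'') :
    (Z.card : ℝ) ≤ 5 * (P.card : ℝ) ^ (3 / 2 : ℝ) := by
  classical
  obtain ⟨n, hn⟩ : ∃ n, n = P.card := ⟨_, rfl⟩
  induction n using Nat.strong_induction_on generalizing P Z with
  | _ n ih =>
    rcases Z.eq_empty_or_nonempty with h | ⟨z0, hz0⟩
    · rw [h, card_empty, Nat.cast_zero]
      positivity
    obtain ⟨p, hp, p', hp', p'', hp'', h1, -⟩ := hZ z0 hz0
    obtain ⟨i, hi⟩ := Function.ne_iff.1 h1
    obtain ⟨t, q, hq, q', hq', ht, ht'⟩ : ∃ t : ℤ, ∃ q ∈ P, ∃ q' ∈ P, q i ≤ t ∧ t < q' i := by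
      rcases lt_or_gt_of_ne hi with h | h
      · exact ⟨p i, p, hp, p', hp', le_rfl, h⟩
      · exact ⟨p' i, p', hp', p, hp, le_rfl, h⟩
    obtain ⟨P0, hP0⟩ : ∃ P0, P0 = P.filter (fun q => q i ≤ t) := ⟨_, rfl⟩
    obtain ⟨P1, hP1⟩ : ∃ P1, P1 = P.filter (fun q => ¬ q i ≤ t) := ⟨_, rfl⟩
    have hcard : P0.card + P1.card = P.card := by
      rw [hP0, hP1]
      exact card_filter_add_card_filter_not _
    have hq0 : q ∈ P0 := by
      rw [hP0]
      exact mem_filter.2 ⟨hq, ht⟩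
    have hq1 : q' ∈ P1 := by
      rw [hP1]
      exact mem_filter.2 ⟨hq', not_le.2 ht'⟩
    have c0 : 1 ≤ P0.card := card_pos.2 ⟨q, hq0⟩
    have c1 : 1 ≤ P1.card := card_pos.2 ⟨q', hq1⟩
    have hPor : ∀ q ∈ P, q ∈ P0 ∨ q ∈ P1 := by
      intro q hq
      by_cases h : q i ≤ t
      · left; rw [hP0]; exact mem_filter.2 ⟨hq, h⟩
      · right; rw [hP1]; exact mem_filter.2 ⟨hq, h⟩
    obtain ⟨e, he⟩ : ∃ e : Fin k → ℤ, e = Pi.single i 1 := ⟨_, rfl⟩
    obtain ⟨A0, hA0⟩ : ∃ A, A = Z.filter (T3 P0) := ⟨_, rfl⟩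
    obtain ⟨A1, hA1⟩ : ∃ A, A = Z.filter (T3 P1) := ⟨_, rfl⟩
    obtain ⟨B0, hB0⟩ : ∃ A, A = Z.filter (fun z => z + e ∈ P1 ∧ T2 P0 z) := ⟨_, rfl⟩
    obtain ⟨B1, hB1⟩ : ∃ A, A = Z.filter (fun z => z - e ∈ P0 ∧ T2 P1 z) := ⟨_, rfl⟩
    have hcov : Z ⊆ A0 ∪ A1 ∪ (B0 ∪ B1) := by
      intro z hz
      have hT := hZ z hz
      rw [mem_union, mem_union, mem_union]
      by_cases hzt : z i ≤ t
      · have hw : ∀ q ∈ P1, Nbr z q → q = z + e := by
          intro q hq hn
          rw [hP1, mem_filter] at hq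
          rcases nbr_cases z q hn i with h | ⟨h, h'⟩ | ⟨h, h'⟩
          · exact absurd (h.le.trans hzt) hq.2
          · rw [he]; exact h'
          · exact absurd (by omega) hq.2
        rcases split P P0 P1 hPor z (z + e) hw hT with h | h
        · left; left; rw [hA0]; exact mem_filter.2 ⟨hz, h⟩
        · right; left; rw [hB0]; exact mem_filter.2 ⟨hz, h⟩
      · have hw : ∀ q ∈ P0, Nbr z q → q = z - e := by
          intro q hq hn
          rw [hP0, mem_filter] at hq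
          rcases nbr_cases z q hn i with h | ⟨h, h'⟩ | ⟨h, h'⟩
          · exact absurd (h ▸ hq.2) hzt
          · exact absurd hq.2 (by omega)
          · rw [he]; exact h'
        rcases split P P1 P0 (fun q hq => (hPor q hq).symm) z (z - e) hw hT with h | h
        · left; right; rw [hA1]; exact mem_filter.2 ⟨hz, h⟩
        · right; right; rw [hB1]; exact mem_filter.2 ⟨hz, h⟩
    have hZc : Z.card ≤ A0.card + A1.card + (B0.card + B1.card) :=
      (card_le_card hcov).trans ((card_union_le _ _).trans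
        (Nat.add_le_add (card_union_le _ _) (card_union_le _ _)))
    have a0 : (A0.card : ℝ) ≤ 5 * (P0.card : ℝ) ^ (3 / 2 : ℝ) := by
      refine ih P0.card (by omega) P0 A0 ?_ rfl
      intro z hz
      rw [hA0] at hz
      exact (mem_filter.1 hz).2
    have a1 : (A1.card : ℝ) ≤ 5 * (P1.card : ℝ) ^ (3 / 2 : ℝ) := by
      refine ih P1.card (by omega) P1 A1 ?_ rfl
      intro z hz
      rw [hA1] at hz
      exact (mem_filter.1 hz).2
    have b0 : B0.card ≤ P1.card := by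
      apply card_le_card_of_injOn (fun z => z + e)
      · intro z hz
        rw [hB0] at hz
        exact (mem_filter.1 hz).2.1
      · intro z _ z' _ h
        exact add_right_cancel h
    have b1 : B1.card ≤ P0.card := by
      apply card_le_card_of_injOn (fun z => z - e)
      · intro z hz
        rw [hB1] at hz
        exact (mem_filter.1 hz).2.1
      · intro z _ z' _ h
        exact sub_left_injective h
    have b0' : B0.card ≤ 2 * P0.card ^ 2 := card_T2 P0 B0 (by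
      intro z hz
      rw [hB0] at hz
      exact (mem_filter.1 hz).2.2)
    have b1' : B1.card ≤ 2 * P1.card ^ 2 := card_T2 P1 B1 (by
      intro z hz
      rw [hB1] at hz
      exact (mem_filter.1 hz).2.2)
    have hZr : (Z.card : ℝ) ≤ A0.card + A1.card + (B0.card + B1.card) := by exact_mod_cast hZc
    have c0r : (1 : ℝ) ≤ P0.card := by exact_mod_cast c0
    have c1r : (1 : ℝ) ≤ P1.card := by exact_mod_cast c1
    have b0r : (B0.card : ℝ) ≤ P1.card := by exact_mod_cast b0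
    have b1r : (B1.card : ℝ) ≤ P0.card := by exact_mod_cast b1
    have b0r' : (B0.card : ℝ) ≤ 2 * (P0.card : ℝ) ^ 2 := by exact_mod_cast b0'
    have b1r' : (B1.card : ℝ) ≤ 2 * (P1.card : ℝ) ^ 2 := by exact_mod_cast b1'
    have hPr : (P.card : ℝ) = P0.card + P1.card := by rw [← hcard]; push_cast; ring
    rw [hPr]
    rcases le_total P0.card P1.card with h | h
    · have hr : (P0.card : ℝ) ≤ P1.card := by exact_mod_cast h
      have := ineq P0.card P1.card c0r hr B0.card b0r b0r'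
      linarith
    · have hr : (P1.card : ℝ) ≤ P0.card := by exact_mod_cast h
      have h5 := ineq P1.card P0.card c1r hr B1.card b1r b1r'
      rw [add_comm (P1.card : ℝ) P0.card] at h5
      linarith

end Pool.Agent.Lib.MPb0e841.GU
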