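import Mathlib
import Pool.Agent.Lib.MP_b0e841_co.GU.Defs

/-! Generic unit vectors: in both cases of the classification, `x_i = ± 1`. -/

namespace Pool.Agent.Lib.MPb0e841.GU

private lemma cir_sign {k : ℕ} (x y z : Fin k → ℤ) (t : Fin k → ℂ) (ht : ∀ l, t l = 1 ∨ t l = -1)
    (h : Cir x y z t) : L x t = 0 ∨ L y t = 0 ∨ L z t = 0 := by
  have hinv : ∀ w : Fin k → ℤ, Lc w t = L w t := by
    intro w
    unfold L Lc
    refine Finset.sum_congr rfl fun l _ => ?_
    rcases ht l with h | h <;> rw [h] <;> ring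
  unfold Cir at h
  rw [hinv, hinv, hinv] at h
  have h1 : (L x t * L y t * L z t) ^ 2 = 0 := by linear_combination h
  have h2 := pow_eq_zero_iff (two_ne_zero) |>.mp h1
  rcases mul_eq_zero.mp h2 with h3 | h3
  · rcases mul_eq_zero.mp h3 with h4 | h4
    · exact Or.inl h4
    · exact Or.inr (Or.inl h4)
  · exact Or.inr (Or.inr h3)

theorem sq_one_first {k : ℕ} (x y z : Fin k → ℤ) (hz : ∀ l, x l + y l + z l = 0)
    (H : ∀ t : Fin k → ℂ, (∀ i, t i ≠ 0) → Cir x y z t) (i j : Fin k) (hij : j ≠ i)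
    (hzi : z i = 0) (hxi : x i ≠ 0) (hx : x j = 1 ∨ x j = -1) (hy : y j = x j)
    (h0 : ∀ l, l ≠ i → l ≠ j → x l = 0 ∧ y l = 0 ∧ z l = 0) : x i = 1 ∨ x i = -1 := by
  have hyi : y i = - x i := by have := hz i; omega
  have hzj : z j = - 2 * x j := by have := hz j; omega
  have hL : ∀ w : Fin k → ℤ, (∀ l, l ≠ i → l ≠ j → w l = 0) →
      L w (fun _ => (1 : ℂ)) = ((w i + w j : ℤ) : ℂ) := by
    intro w hw
    unfold L
    rw [Fintype.sum_eq_add i j hij.symm]
    · push_cast; ring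
    · rintro l ⟨h1, h2⟩
      rw [hw l h1 h2]; simp
  have h := cir_sign x y z (fun _ => (1 : ℂ)) (fun _ => Or.inl rfl)
    (H _ (fun _ => one_ne_zero))
  rw [hL x (fun l h1 h2 => (h0 l h1 h2).1), hL y (fun l h1 h2 => (h0 l h1 h2).2.1),
    hL z (fun l h1 h2 => (h0 l h1 h2).2.2)] at h
  simp only [Int.cast_eq_zero] at h
  omega

theorem sq_one_second {k : ℕ} (x y z : Fin k → ℤ) (hz : ∀ l, x l + y l + z l = 0)
    (H : ∀ t : Fin k → ℂ, (∀ i, t i ≠ 0) → Cir x y z t) (i j m : Fin k) (hij : j ≠ i)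
    (him : m ≠ i) (hjm : j ≠ m) (hzi : z i = 0) (hxi : x i ≠ 0) (hx : x j = 1 ∨ x j = -1)
    (hyj : y j = 0) (hxm : x m = 0) (hy : y m = 1 ∨ y m = -1)
    (h0 : ∀ l, l ≠ i → l ≠ j → l ≠ m → x l = 0 ∧ y l = 0 ∧ z l = 0) : x i = 1 ∨ x i = -1 := by
  have hyi : y i = - x i := by have := hz i; omega
  have hzj : z j = - x j := by have := hz j; omega
  have hzm : z m = - y m := by have := hz m; omega
  obtain ⟨ε, hε, hne⟩ : ∃ ε : ℤ, (ε = 1 ∨ ε = -1) ∧ x j + y m * ε ≠ 0 := by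
    by_cases h : x j + y m = 0
    · exact ⟨-1, Or.inr rfl, by omega⟩
    · exact ⟨1, Or.inl rfl, by omega⟩
  set t : Fin k → ℂ := Function.update (fun _ => (1 : ℂ)) m (ε : ℂ) with ht
  have htm : t m = ε := by rw [ht, Function.update_self]
  have htl : ∀ l, l ≠ m → t l = 1 := by
    intro l hl
    rw [ht, Function.update_of_ne hl]
  have hsign : ∀ l, t l = 1 ∨ t l = -1 := by
    intro l
    by_cases hl : l = m
    · rw [hl, htm]
      rcases hε with h | h <;> rw [h] <;> simp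
    · exact Or.inl (htl l hl)
  have h := cir_sign x y z t hsign (H t (fun l => by
    rcases hsign l with h | h <;> rw [h] <;> simp))
  have hLx : L x t = ((x i + x j : ℤ) : ℂ) := by
    unfold L
    rw [Fintype.sum_eq_add i j hij.symm, htl i him.symm, htl j hjm]
    · push_cast; ring
    · rintro l ⟨h1, h2⟩
      by_cases hl : l = m
      · rw [hl, hxm]; simp
      · rw [(h0 l h1 h2 hl).1]; simp
  have hLy : L y t = ((y i + y m * ε : ℤ) : ℂ) := by
    unfold L
    rw [Fintype.sum_eq_add i m him.symm, htl i him.symm, htm]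
    · push_cast; ring
    · rintro l ⟨h1, h2⟩
      by_cases hl : l = j
      · rw [hl, hyj]; simp
      · rw [(h0 l h1 hl h2).2.1]; simp
  have hLz : L z t = ((-(x j + y m * ε) : ℤ) : ℂ) := by
    unfold L
    rw [Fintype.sum_eq_add j m hjm, htl j hjm, htm, hzj, hzm]
    · push_cast; ring
    · rintro l ⟨h1, h2⟩
      by_cases hl : l = i
      · rw [hl, hzi]; simp
      · rw [(h0 l hl h1 h2).2.2]; simp
  rw [hLx, hLy, hLz] at h
  simp only [Int.cast_eq_zero] at h
  rcases hε with rfl | rfl <;> rcases hy with hy | hy <;> omega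

end Pool.Agent.Lib.MPb0e841.GU
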