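import Mathlib
import Pool.Agent.Lib.MP_b0e841_co.GU.G1
import Pool.Agent.Lib.MP_b0e841_co.GU.G2
import Pool.Agent.Lib.MP_b0e841_co.GU.G3
import Pool.Agent.Lib.MP_b0e841_co.GU.G4
import Pool.Agent.Lib.MP_b0e841_co.GU.G5
import Pool.Agent.Lib.MP_b0e841_co.GU.G6
import Pool.Agent.Lib.MP_b0e841_co.NF.Main

/-!
Assembly for the generic unit vector theorem: three grid points whose images lie on a unit circle
have a common neighbour in the grid.
-/

namespace Pool.Agent.Lib.MPb0e841.GU

lemma L_sub {k : ℕ} (x y : Fin k → ℤ) (t : Fin k → ℂ) : L (x - y) t = L x t - L y t := by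
  unfold L
  rw [← Finset.sum_sub_distrib]
  apply Finset.sum_congr rfl
  intro i _
  simp only [Pi.sub_apply]
  push_cast
  ring

lemma L_add {k : ℕ} (x y : Fin k → ℤ) (t : Fin k → ℂ) : L (x + y) t = L x t + L y t := by
  unfold L
  rw [← Finset.sum_add_distrib]
  apply Finset.sum_congr rfl
  intro i _
  simp only [Pi.add_apply]
  push_cast
  ring

lemma L_single {k : ℕ} (i : Fin k) (t : Fin k → ℂ) : L (Pi.single i 1) t = t i := by
  unfold L
  rw [Finset.sum_eq_single i]
  · simp
  · intro j _ hj
    simp [Pi.single_eq_of_ne hj]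
  · intro h
    exact absurd (Finset.mem_univ i) h

lemma L_sum_zero {k : ℕ} {x y z : Fin k → ℤ} (hz : ∀ l, x l + y l + z l = 0) (t : Fin k → ℂ) :
    L z t = -L x t - L y t := by
  unfold L
  rw [← Finset.sum_neg_distrib, ← Finset.sum_sub_distrib]
  apply Finset.sum_congr rfl
  intro i _
  have h1 : z i = -x i - y i := by have := hz i; omega
  rw [h1]
  push_cast
  ring

lemma Lc_sum_zero {k : ℕ} {x y z : Fin k → ℤ} (hz : ∀ l, x l + y l + z l = 0)
    (t : Fin k → ℂ) : Lc z t = -Lc x t - Lc y t := by
  unfold Lc
  rw [← Finset.sum_neg_distrib, ← Finset.sum_sub_distrib]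
  apply Finset.sum_congr rfl
  intro i _
  have h1 : z i = -x i - y i := by have := hz i; omega
  rw [h1]
  push_cast
  ring

lemma Cir.rot {k : ℕ} {x y z : Fin k → ℤ} (hz : ∀ l, x l + y l + z l = 0) {t : Fin k → ℂ}
    (h : Cir x y z t) : Cir y z x t := by
  unfold Cir at h ⊢
  rw [L_sum_zero hz t, Lc_sum_zero hz t] at h ⊢
  linear_combination h

/-- The centre of a triangle in the first position. -/
lemma center {k : ℕ} (A B C : Fin k → ℤ)
    (H : ∀ t : Fin k → ℂ, (∀ i, t i ≠ 0) → Cir (B - A) (A - C) (C - B) t) (i : Fin k)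
    (hzi : (C - B) i = 0) (hxi : (B - A) i ≠ 0) (hz0 : C - B ≠ 0) :
    ∃ c, Nbr c A ∧ Nbr c B ∧ Nbr c C := by
  have hz : ∀ l, (B - A) l + (A - C) l + (C - B) l = 0 := by
    intro l
    simp only [Pi.sub_apply]
    ring
  have pm : ∀ (c p : Fin k → ℤ) (j : Fin k) (s : ℤ), (s = 1 ∨ s = -1) →
      p = c + Pi.single j s → Nbr c p := by
    intro c p j s hs hp
    rcases hs with rfl | rfl
    · exact ⟨j, Or.inl hp⟩
    · refine ⟨j, Or.inr ?_⟩
      rw [hp, Pi.single_neg, sub_eq_add_neg]
  have hyi : (A - C) i = -(B - A) i := by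
    have := hz i
    rw [hzi] at this
    omega
  have htop := top_coeff _ _ _ hz H i hzi hxi
  rcases classify _ _ _ hz i hzi hz0 htop with
    ⟨j, hji, hxj, hyj, hzj, h0⟩ | ⟨j, m, hji, hmi, hjm, hxj, hyj, hzj, hxm, hym, hzm, h0⟩
  · have hxi1 := sq_one_first _ _ _ hz H i j hji hzi hxi hxj hyj h0
    refine ⟨A + Pi.single i ((B - A) i), ?_, ?_, ?_⟩
    · apply pm _ _ i (-(B - A) i)
      · rcases hxi1 with h | h
        · right; rw [h]
        · left; rw [h]; norm_num
      · rw [Pi.single_neg]; abel
    · apply pm _ _ j ((B - A) j) hxj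
      funext l
      simp only [Pi.add_apply]
      by_cases hl : l = i
      · subst hl
        rw [Pi.single_eq_same, Pi.single_eq_of_ne hji.symm]
        simp only [Pi.sub_apply]; ring
      · by_cases hl2 : l = j
        · subst hl2
          rw [Pi.single_eq_same, Pi.single_eq_of_ne hl]
          simp only [Pi.sub_apply]; ring
        · rw [Pi.single_eq_of_ne hl, Pi.single_eq_of_ne hl2]
          have := (h0 l hl hl2).1
          simp only [Pi.sub_apply] at this
          linarith
    · apply pm _ _ j (-(A - C) j)
      · rw [hyj]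
        rcases hxj with h | h
        · right; rw [h]
        · left; rw [h]; norm_num
      · funext l
        simp only [Pi.add_apply]
        by_cases hl : l = i
        · subst hl
          rw [Pi.single_eq_same, Pi.single_eq_of_ne hji.symm]
          simp only [Pi.sub_apply] at hyi ⊢; linarith
        · by_cases hl2 : l = j
          · subst hl2
            rw [Pi.single_eq_same, Pi.single_eq_of_ne hl]
            simp only [Pi.sub_apply]; ring
          · rw [Pi.single_eq_of_ne hl, Pi.single_eq_of_ne hl2]
            have := (h0 l hl hl2).2.1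
            simp only [Pi.sub_apply] at this
            linarith
  · have hxi1 := sq_one_second _ _ _ hz H i j m hji hmi hjm hzi hxi hxj hyj hxm hym h0
    refine ⟨A + Pi.single i ((B - A) i), ?_, ?_, ?_⟩
    · apply pm _ _ i (-(B - A) i)
      · rcases hxi1 with h | h
        · right; rw [h]
        · left; rw [h]; norm_num
      · rw [Pi.single_neg]; abel
    · apply pm _ _ j ((B - A) j) hxj
      funext l
      simp only [Pi.add_apply]
      by_cases hl : l = i
      · subst hl
        rw [Pi.single_eq_same, Pi.single_eq_of_ne hji.symm]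
        simp only [Pi.sub_apply]; ring
      · by_cases hl2 : l = j
        · subst hl2
          rw [Pi.single_eq_same, Pi.single_eq_of_ne hl]
          simp only [Pi.sub_apply]; ring
        · rw [Pi.single_eq_of_ne hl, Pi.single_eq_of_ne hl2]
          by_cases hl3 : l = m
          · subst hl3
            simp only [Pi.sub_apply] at hxm
            linarith
          · have := (h0 l hl hl2 hl3).1
            simp only [Pi.sub_apply] at this
            linarith
    · apply pm _ _ m (-(A - C) m)
      · rcases hym with h | h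
        · right; rw [h]
        · left; rw [h]; norm_num
      · funext l
        simp only [Pi.add_apply]
        by_cases hl : l = i
        · subst hl
          rw [Pi.single_eq_same, Pi.single_eq_of_ne hmi.symm]
          simp only [Pi.sub_apply] at hyi ⊢; linarith
        · by_cases hl2 : l = m
          · subst hl2
            rw [Pi.single_eq_same, Pi.single_eq_of_ne hl]
            simp only [Pi.sub_apply]; ring
          · rw [Pi.single_eq_of_ne hl, Pi.single_eq_of_ne hl2]
            by_cases hl3 : l = j
            · subst hl3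
              simp only [Pi.sub_apply] at hyj
              linarith
            · have := (h0 l hl hl3 hl2).2.1
              simp only [Pi.sub_apply] at this
              linarith

/-- Three grid points with the circumradius identity have a common neighbour. -/
lemma exists_center {k : ℕ} (A B C : Fin k → ℤ) (hAB : A ≠ B) (hBC : B ≠ C) (hAC : A ≠ C)
    (H : ∀ t : Fin k → ℂ, (∀ i, t i ≠ 0) → Cir (B - A) (A - C) (C - B) t)
    {u : Fin k → ℂ} (hu : ∀ i, u i ≠ 0)
    (hD : L (B - A) u * Lc (A - C) u - Lc (B - A) u * L (A - C) u ≠ 0) :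
    ∃ c, Nbr c A ∧ Nbr c B ∧ Nbr c C := by
  have hz : ∀ l, (B - A) l + (A - C) l + (C - B) l = 0 := by
    intro l
    simp only [Pi.sub_apply]
    ring
  by_cases h : ∃ i, ((B - A) i ≠ 0 ∨ (A - C) i ≠ 0) ∧
      ((B - A) i = 0 ∨ (A - C) i = 0 ∨ (C - B) i = 0)
  · obtain ⟨i, h1, h2⟩ := h
    have hs := hz i
    rcases h2 with h2 | h2 | h2
    · -- x i = 0
      have hy : (A - C) i ≠ 0 := by
        rcases h1 with h1 | h1
        · exact absurd h2 h1
        · exact h1
      obtain ⟨c, c1, c2, c3⟩ := center C A B
        (fun t ht => (H t ht).rot hz) i h2 hy (sub_ne_zero.mpr (Ne.symm hAB))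
      exact ⟨c, c2, c3, c1⟩
    · -- y i = 0
      have hx : (C - B) i ≠ 0 := by
        rcases h1 with h1 | h1
        · intro h3
          apply h1
          rw [h2, h3] at hs
          omega
        · exact absurd h2 h1
      have hz' : ∀ l, (A - C) l + (C - B) l + (B - A) l = 0 := by
        intro l
        have := hz l
        omega
      obtain ⟨c, c1, c2, c3⟩ := center B C A
        (fun t ht => ((H t ht).rot hz).rot hz') i h2 hx (sub_ne_zero.mpr hAC)
      exact ⟨c, c3, c1, c2⟩
    · -- z i = 0
      have hx : (B - A) i ≠ 0 := by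
        rcases h1 with h1 | h1
        · exact h1
        · intro h3
          apply h1
          rw [h2, h3] at hs
          omega
      exact center A B C H i h2 hx (sub_ne_zero.mpr (Ne.symm hBC))
  · exfalso
    push Not at h
    -- a coordinate with x i ≠ 0
    have hx : B - A ≠ 0 := sub_ne_zero.mpr (Ne.symm hAB)
    obtain ⟨i, hi⟩ := Function.ne_iff.mp hx
    have hi' : (B - A) i ≠ 0 := hi
    obtain ⟨a1, a2, a3⟩ := h i (Or.inl hi')
    have key : ∀ l, l ≠ i → (B - A) l = 0 ∧ (A - C) l = 0 := by
      intro l hl
      by_contra hcon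
      have h4 : (B - A) l ≠ 0 ∨ (A - C) l ≠ 0 := by
        by_contra h5
        push Not at h5
        exact hcon h5
      obtain ⟨b1, b2, b3⟩ := h l h4
      rcases support_single _ _ _ H i a1 a2 a3 with s | s | s
      · exact b1 (s l hl)
      · exact b2 (s l hl)
      · exact b3 (s l hl)
    apply hD
    have e1 : L (B - A) u = ((B - A) i : ℂ) * u i := by
      unfold L
      rw [Finset.sum_eq_single i]
      · intro l _ hl
        rw [(key l hl).1]; simp
      · intro hh; exact absurd (Finset.mem_univ i) hh
    have e2 : L (A - C) u = ((A - C) i : ℂ) * u i := by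
      unfold L
      rw [Finset.sum_eq_single i]
      · intro l _ hl
        rw [(key l hl).2]; simp
      · intro hh; exact absurd (Finset.mem_univ i) hh
    have e3 : Lc (B - A) u = ((B - A) i : ℂ) / u i := by
      unfold Lc
      rw [Finset.sum_eq_single i]
      · intro l _ hl
        rw [(key l hl).1]; simp
      · intro hh; exact absurd (Finset.mem_univ i) hh
    have e4 : Lc (A - C) u = ((A - C) i : ℂ) / u i := by
      unfold Lc
      rw [Finset.sum_eq_single i]
      · intro l _ hl
        rw [(key l hl).2]; simp
      · intro hh; exact absurd (Finset.mem_univ i) hh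
    rw [e1, e2, e3, e4]
    have := hu i
    field_simp
    ring

end Pool.Agent.Lib.MPb0e841.GU
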