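import Mathlib
import Pool.Agent.Lib.MP_b0e841_co.GU.Asm

/-!
Unit circles through three points of a finite set `P` which are congruent modulo the additive
group generated by any number of algebraically independent unit vectors: there are at most
`5 |P|^(3/2)` of them.
-/

namespace Pool.Agent.Lib.MPb0e841.GU

open Finset Classical Pool.Agent.Lib.MPb0e841.NF

lemma conj_L {k : ℕ} {u : Fin k → ℂ} (hu : ∀ i, ‖u i‖ = 1) (x : Fin k → ℤ) :
    (starRingEnd ℂ) (L x u) = Lc x u := by
  unfold L Lc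
  rw [map_sum]
  apply Finset.sum_congr rfl
  intro i _
  rw [map_mul, map_intCast, div_eq_mul_inv, Complex.inv_def, Complex.normSq_eq_norm_sq, hu i]
  simp

/-- `v` lies in the additive group generated by `u_1, ..., u_k`. -/
def InG {k : ℕ} (u : Fin k → ℂ) (v : ℂ) : Prop := ∃ x : Fin k → ℤ, v = ∑ i, (x i : ℂ) * u i

lemma InG.neg {k : ℕ} {u : Fin k → ℂ} {v : ℂ} (h : InG u v) : InG u (-v) := by
  obtain ⟨x, rfl⟩ := h
  refine ⟨-x, ?_⟩
  rw [← Finset.sum_neg_distrib]
  apply Finset.sum_congr rfl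
  intro i _
  simp

lemma InG.add {k : ℕ} {u : Fin k → ℂ} {v w : ℂ} (h : InG u v) (h' : InG u w) :
    InG u (v + w) := by
  obtain ⟨x, rfl⟩ := h
  obtain ⟨y, rfl⟩ := h'
  exact ⟨x + y, (L_add x y u).symm⟩

lemma InG.zero {k : ℕ} (u : Fin k → ℂ) : InG u 0 := ⟨0, by simp⟩

lemma nbr_cons {k : ℕ} {c p : Fin k → ℤ} (n : ℤ) (h : Nbr c p) :
    Nbr (k := k + 1) (Fin.cons n c) (Fin.cons n p) := by
  obtain ⟨i, rfl | rfl⟩ := h
  · refine ⟨i.succ, Or.inl ?_⟩
    funext l
    refine Fin.cases ?_ (fun l => ?_) l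
    · simp
    · by_cases hl : l = i
      · subst hl; simp
      · simp [Pi.single_eq_of_ne hl, Pi.single_eq_of_ne (fun h => hl (Fin.succ_injective _ h))]
  · refine ⟨i.succ, Or.inr ?_⟩
    funext l
    refine Fin.cases ?_ (fun l => ?_) l
    · simp
    · by_cases hl : l = i
      · subst hl; simp
      · simp [Pi.single_eq_of_ne hl, Pi.single_eq_of_ne (fun h => hl (Fin.succ_injective _ h))]

/-- Three points of one coset on a unit circle: the centre lies in the coset and is a common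
neighbour in the grid. -/
lemma centre_in_grid {k : ℕ} {u : Fin k → ℂ} (hu : ∀ i, ‖u i‖ = 1)
    (hind : AlgebraicIndependent ℚ u) {o z p1 p2 p3 : ℂ} {X1 X2 X3 : Fin k → ℤ}
    (r1 : p1 = o + L X1 u) (r2 : p2 = o + L X2 u) (r3 : p3 = o + L X3 u)
    (n12 : p1 ≠ p2) (n13 : p1 ≠ p3) (n23 : p2 ≠ p3)
    (d1 : dist p1 z = 1) (d2 : dist p2 z = 1) (d3 : dist p3 z = 1) :
    ∃ c : Fin k → ℤ, z = o + L c u ∧ X1 ≠ X2 ∧ X1 ≠ X3 ∧ X2 ≠ X3 ∧
      Nbr c X1 ∧ Nbr c X2 ∧ Nbr c X3 := by
  have hu0 : ∀ i, u i ≠ 0 := by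
    intro i h0
    have := hu i
    rw [h0] at this
    simp at this
  have x12 : X1 ≠ X2 := by
    intro h; apply n12; rw [r1, r2, h]
  have x13 : X1 ≠ X3 := by
    intro h; apply n13; rw [r1, r3, h]
  have x23 : X2 ≠ X3 := by
    intro h; apply n23; rw [r2, r3, h]
  have s2 : p2 = p1 + L (X2 - X1) u := by
    rw [L_sub]; linear_combination r2 - r1
  have s3 : p3 = p1 - L (X1 - X3) u := by
    rw [L_sub]; linear_combination r3 - r1
  have s4 : L (X3 - X2) u = p3 - p2 := by
    rw [L_sub]; linear_combination r2 - r3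
  set V := L (X2 - X1) u with hV
  set Y := L (X1 - X3) u with hY
  have cV : Lc (X2 - X1) u = (starRingEnd ℂ) V := (conj_L hu _).symm
  have cY : Lc (X1 - X3) u = (starRingEnd ℂ) Y := (conj_L hu _).symm
  have cZ : Lc (X3 - X2) u = (starRingEnd ℂ) (p3 - p2) := by
    rw [← s4]; exact (conj_L hu _).symm
  have E0 := dist_one_mul d1
  have E1 := dist_one_mul d2
  have E2 := dist_one_mul d3
  have rel := circumC (V := V) (V' := (starRingEnd ℂ) V) (W := -Y) (W' := -(starRingEnd ℂ) Y)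
    (c := z - p1) (c' := (starRingEnd ℂ) z - (starRingEnd ℂ) p1) (R := 1)
    (by linear_combination E0)
    (by
      rw [s2, map_add] at E1
      linear_combination E1)
    (by
      rw [s3, map_sub] at E2
      linear_combination E2)
  have hW : p3 - p2 = -Y - V := by rw [s2, s3]; ring
  have hCir : Cir (X2 - X1) (X1 - X3) (X3 - X2) u := by
    unfold Cir
    rw [cV, cY, cZ, s4, hW, ← hV, ← hY, map_sub, map_neg]
    linear_combination rel
  have hV0 : V ≠ 0 := by
    intro h; apply n12; rw [s2, h]; ring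
  have hY0 : Y ≠ 0 := by
    intro h; apply n13; rw [s3, h]; ring
  have hW0 : -Y - V ≠ 0 := by
    rw [← hW]
    intro h; apply n23; exact (sub_eq_zero.mp h).symm
  have hD : V * (starRingEnd ℂ) Y - (starRingEnd ℂ) V * Y ≠ 0 := by
    intro h0
    have h1 : V * (starRingEnd ℂ) V * (Y * (starRingEnd ℂ) Y)
        * ((-Y - V) * (starRingEnd ℂ) (-Y - V)) = 0 := by
      rw [map_sub, map_neg]
      linear_combination rel - (V * (starRingEnd ℂ) Y - (starRingEnd ℂ) V * Y) * h0
    have c1 : (starRingEnd ℂ) V ≠ 0 := by simpa using hV0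
    have c2 : (starRingEnd ℂ) Y ≠ 0 := by simpa using hY0
    have c3 : (starRingEnd ℂ) (-Y - V) ≠ 0 := (map_ne_zero _).mpr hW0
    exact (mul_ne_zero (mul_ne_zero (mul_ne_zero hV0 c1) (mul_ne_zero hY0 c2))
      (mul_ne_zero hW0 c3)) h1
  obtain ⟨c, c1, c2, c3⟩ := exists_center X1 X2 X3 x12 x23 x13
    (cir_of_indep u hu0 hind _ _ _ hCir) hu0 (by
      rw [cV, cY, ← hV, ← hY]; exact hD)
  refine ⟨c, ?_, x12, x13, x23, c1, c2, c3⟩
  -- uniqueness of the centre
  have hd : ∀ p : ℂ, ∀ x : Fin k → ℤ, p = o + L x u → Nbr c x →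
      dist p (o + L c u) = 1 := by
    intro p x hp hn
    obtain ⟨i, hi | hi⟩ := hn
    · rw [hp, hi, L_add, L_single, dist_eq_norm]
      have : o + (L c u + u i) - (o + L c u) = u i := by ring
      rw [this]; exact hu i
    · rw [hp, hi, L_sub, L_single, dist_eq_norm]
      have : o + (L c u - u i) - (o + L c u) = -u i := by ring
      rw [this, norm_neg]; exact hu i
  by_contra hne
  have e1 := hd p1 _ r1 c1
  have e2 := hd p2 _ r2 c2
  have e3 := hd p3 _ r3 c3
  rcases EuclideanGeometry.eq_of_dist_eq_of_dist_eq_of_finrank_eq_two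
    Complex.finrank_real_complex hne n12 (p := p3) (r₁ := 1) (r₂ := 1)
    d1 d2 d3 e1 e2 e3 with h | h
  · exact n13 h.symm
  · exact n23 h.symm

/-- For every `k`, all unit complex numbers `u_1, ..., u_k` which are algebraically independent
over `ℚ` and every finite set `P` in the plane `ℂ`, at most `5 |P|^(3/2)` points `z` are centres of
a unit circle through three distinct points `p, p', p''` of `P` with `p' - p` and `p'' - p` in the
group `ℤ u_1 + ... + ℤ u_k`. -/
theorem generic_int :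
    ∀ (k : ℕ) (u : Fin k → ℂ), (∀ i, ‖u i‖ = 1) → AlgebraicIndependent ℚ u →
      ∀ P C : Finset ℂ,
        (∀ z ∈ C, ∃ p ∈ P, ∃ p' ∈ P, ∃ p'' ∈ P, p ≠ p' ∧ p ≠ p'' ∧ p' ≠ p'' ∧
          dist p z = 1 ∧ dist p' z = 1 ∧ dist p'' z = 1 ∧
          InG u (p' - p) ∧ InG u (p'' - p)) →
        (C.card : ℝ) ≤ 5 * (P.card : ℝ) ^ (3 / 2 : ℝ) := by
  intro k u hu hind P C hC
  -- representatives of the cosets
  let st : Setoid ℂ :=
    { r := fun a b => InG u (b - a)
      iseqv := ⟨fun a => by rw [sub_self]; exact InG.zero u,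
        fun {a b} h => by have := h.neg; rwa [neg_sub] at this,
        fun {a b c} h h' => by
          have := InG.add h' h
          rwa [sub_add_sub_cancel] at this⟩ }
  let rep : ℂ → ℂ := fun p => Quotient.out (Quotient.mk st p)
  have hrep : ∀ p, InG u (p - rep p) := fun p => Quotient.mk_out (s := st) p
  have hrep2 : ∀ p p', InG u (p' - p) → rep p = rep p' := by
    intro p p' h
    have : Quotient.mk st p = Quotient.mk st p' := Quotient.sound h
    simp only [rep, this]
  choose X hX using hrep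
  have hXL : ∀ p, p = rep p + L (X p) u := by
    intro p
    have h1 : p - rep p = L (X p) u := hX p
    linear_combination h1
  obtain ⟨ν, hν⟩ := Set.countable_iff_exists_injOn.mp (P.image rep).countable_toSet
  let Y : ℂ → (Fin (k + 1) → ℤ) := fun p => Fin.cons ((ν (rep p) : ℕ) : ℤ) (X p)
  have main : ∀ z ∈ C, ∃ (c : Fin k → ℤ) (r : ℂ), r ∈ P.image rep ∧ z = r + L c u ∧
      ∃ p ∈ P, ∃ p' ∈ P, ∃ p'' ∈ P, Y p ≠ Y p' ∧ Y p ≠ Y p'' ∧ Y p' ≠ Y p'' ∧
        Nbr (k := k + 1) (Fin.cons ((ν r : ℕ) : ℤ) c) (Y p) ∧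
        Nbr (k := k + 1) (Fin.cons ((ν r : ℕ) : ℤ) c) (Y p') ∧
        Nbr (k := k + 1) (Fin.cons ((ν r : ℕ) : ℤ) c) (Y p'') := by
    intro z hz
    obtain ⟨p1, m1, p2, m2, p3, m3, n12, n13, n23, d1, d2, d3, g2, g3⟩ := hC z hz
    have e2 : rep p1 = rep p2 := hrep2 _ _ g2
    have e3 : rep p1 = rep p3 := hrep2 _ _ g3
    obtain ⟨c, hc, x12, x13, x23, c1, c2, c3⟩ := centre_in_grid (o := rep p1) hu hind (hXL p1)
      (by rw [e2]; exact hXL p2) (by rw [e3]; exact hXL p3) n12 n13 n23 d1 d2 d3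
    have inj : ∀ (a b : ℤ) (x y : Fin k → ℤ), x ≠ y →
        (Fin.cons a x : Fin (k + 1) → ℤ) ≠ Fin.cons b y := by
      intro a b x y hxy h
      apply hxy
      funext l
      have := congrFun h l.succ
      simpa using this
    refine ⟨c, rep p1, mem_image_of_mem rep m1, hc, p1, m1, p2, m2, p3, m3, inj _ _ _ _ x12,
      inj _ _ _ _ x13, inj _ _ _ _ x23, nbr_cons _ c1, ?_, ?_⟩
    · simp only [Y]
      rw [← e2]; exact nbr_cons _ c2
    · simp only [Y]
      rw [← e3]; exact nbr_cons _ c3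
  choose! c r hc using main
  have hinj : Set.InjOn (fun z => (Fin.cons ((ν (r z) : ℕ) : ℤ) (c z) : Fin (k + 1) → ℤ)) C := by
    intro z hz z' hz' h
    have h0 : ((ν (r z) : ℕ) : ℤ) = ((ν (r z') : ℕ) : ℤ) := by
      have := congrFun h 0
      simpa using this
    have h1 : c z = c z' := by
      funext l
      have := congrFun h l.succ
      simpa using this
    have h2 : r z = r z' := by
      apply hν (by exact_mod_cast (hc z hz).1) (by exact_mod_cast (hc z' hz').1)
      exact_mod_cast h0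
    rw [(hc z hz).2.1, (hc z' hz').2.1, h1, h2]
  have h1 : ((C.image (fun z => (Fin.cons ((ν (r z) : ℕ) : ℤ) (c z) :
      Fin (k + 1) → ℤ))).card : ℝ) ≤ 5 * ((P.image Y).card : ℝ) ^ (3 / 2 : ℝ) := by
    apply card_three_nbrs
    intro w hw
    rw [mem_image] at hw
    obtain ⟨z, hz, rfl⟩ := hw
    obtain ⟨-, -, p, hp, p', hp', p'', hp'', a1, a2, a3, b1, b2, b3⟩ := hc z hz
    exact ⟨Y p, mem_image_of_mem Y hp, Y p', mem_image_of_mem Y hp', Y p'',
      mem_image_of_mem Y hp'', a1, a2, a3, b1, b2, b3⟩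
  rw [Finset.card_image_of_injOn hinj] at h1
  refine h1.trans ?_
  apply mul_le_mul_of_nonneg_left _ (by norm_num)
  apply Real.rpow_le_rpow (Nat.cast_nonneg _) _ (by norm_num)
  exact_mod_cast Finset.card_image_le

/-- The three points differ from the centre by generators. -/
lemma centre_unit {k : ℕ} {u : Fin k → ℂ} (hu : ∀ i, ‖u i‖ = 1)
    (hind : AlgebraicIndependent ℚ u) {z p1 p2 p3 : ℂ}
    (n12 : p1 ≠ p2) (n13 : p1 ≠ p3) (n23 : p2 ≠ p3)
    (d1 : dist p1 z = 1) (d2 : dist p2 z = 1) (d3 : dist p3 z = 1)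
    (g2 : InG u (p2 - p1)) (g3 : InG u (p3 - p1)) :
    (∃ i, p1 = z + u i ∨ p1 = z - u i) ∧ (∃ i, p2 = z + u i ∨ p2 = z - u i) ∧
      (∃ i, p3 = z + u i ∨ p3 = z - u i) := by
  obtain ⟨X2, h2⟩ := g2
  obtain ⟨X3, h3⟩ := g3
  have r1 : p1 = p1 + L (0 : Fin k → ℤ) u := by simp [L]
  have r2 : p2 = p1 + L X2 u := by
    have : p2 - p1 = L X2 u := h2
    linear_combination this
  have r3 : p3 = p1 + L X3 u := by
    have : p3 - p1 = L X3 u := h3
    linear_combination this
  obtain ⟨c, hc, -, -, -, c1, c2, c3⟩ := centre_in_grid hu hind r1 r2 r3 n12 n13 n23 d1 d2 d3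
  have key : ∀ p : ℂ, ∀ x : Fin k → ℤ, p = p1 + L x u → Nbr c x →
      ∃ i, p = z + u i ∨ p = z - u i := by
    intro p x hp hn
    obtain ⟨i, hi | hi⟩ := hn
    · refine ⟨i, Or.inl ?_⟩
      rw [hp, hi, L_add, L_single]
      linear_combination -hc
    · refine ⟨i, Or.inr ?_⟩
      rw [hp, hi, L_sub, L_single]
      linear_combination -hc
  exact ⟨key p1 _ r1 c1, key p2 _ r2 c2, key p3 _ r3 c3⟩

/-- The linear bound. -/
theorem generic_linear :
    ∀ (k : ℕ) (u : Fin k → ℂ), (∀ i, ‖u i‖ = 1) → AlgebraicIndependent ℚ u →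
      ∀ P C : Finset ℂ,
        (∀ z ∈ C, ∃ p ∈ P, ∃ p' ∈ P, ∃ p'' ∈ P, p ≠ p' ∧ p ≠ p'' ∧ p' ≠ p'' ∧
          dist p z = 1 ∧ dist p' z = 1 ∧ dist p'' z = 1 ∧
          InG u (p' - p) ∧ InG u (p'' - p)) →
        C.card * 3 ≤ P.card * (2 * k) := by
  intro k u hu hind P C hC
  let r : ℂ → ℂ → Prop := fun z p => ∃ i, p = z + u i ∨ p = z - u i
  apply Finset.card_mul_le_card_mul r
  · intro z hz
    obtain ⟨p1, m1, p2, m2, p3, m3, n12, n13, n23, d1, d2, d3, g2, g3⟩ := hC z hz
    obtain ⟨c1, c2, c3⟩ := centre_unit hu hind n12 n13 n23 d1 d2 d3 g2 g3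
    have hsub : ({p1, p2, p3} : Finset ℂ) ⊆ Finset.bipartiteAbove r P z := by
      intro p hp
      simp only [Finset.mem_insert, Finset.mem_singleton] at hp
      rw [Finset.mem_bipartiteAbove]
      rcases hp with rfl | rfl | rfl
      · exact ⟨m1, c1⟩
      · exact ⟨m2, c2⟩
      · exact ⟨m3, c3⟩
    have h3 : ({p1, p2, p3} : Finset ℂ).card = 3 := by
      rw [Finset.card_insert_of_notMem, Finset.card_pair n23]
      simp [n12, n13]
    rw [← h3]
    exact Finset.card_le_card hsub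
  · intro p hp
    have hsub : Finset.bipartiteBelow r C p ⊆
        (Finset.univ : Finset (Fin k)).image (fun i => p - u i) ∪
        (Finset.univ : Finset (Fin k)).image (fun i => p + u i) := by
      intro z hz
      rw [Finset.mem_bipartiteBelow] at hz
      obtain ⟨-, i, hi | hi⟩ := hz
      · rw [Finset.mem_union]; left
        rw [Finset.mem_image]
        exact ⟨i, Finset.mem_univ _, by rw [hi]; ring⟩
      · rw [Finset.mem_union]; right
        rw [Finset.mem_image]
        exact ⟨i, Finset.mem_univ _, by rw [hi]; ring⟩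
    refine (Finset.card_le_card hsub).trans ((Finset.card_union_le _ _).trans ?_)
    have e1 : ((Finset.univ : Finset (Fin k)).image (fun i => p - u i)).card ≤ k := by
      refine Finset.card_image_le.trans ?_
      simp
    have e2 : ((Finset.univ : Finset (Fin k)).image (fun i => p + u i)).card ≤ k := by
      refine Finset.card_image_le.trans ?_
      simp
    omega

end Pool.Agent.Lib.MPb0e841.GU
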